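import Pool.Agent.TH719.ED.Defs

set_option autoImplicit false
namespace Pool.Agent.TH719.ED
open scoped Pointwise
open Filter Topology

namespace H816

lemma cov_nil : Cov [] = ∅ := by ext; simp [Cov]

lemma cov_cons (a : ℕ × ℕ) (L : List (ℕ × ℕ)) : Cov (a :: L) = Set.Ico a.1 a.2 ∪ Cov L := by
  ext j; simp [Cov, Set.mem_Ico]

lemma cov_finite (L : List (ℕ × ℕ)) : (Cov L).Finite := by
  induction L with
  | nil => rw [cov_nil]; exact Set.finite_empty
  | cons a L ih => rw [cov_cons]; exact (Set.finite_Ico _ _).union ih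

lemma cov_ncard (L : List (ℕ × ℕ)) (hs : L.Pairwise (fun a b => a.2 ≤ b.1)) :
    (Cov L).ncard = (L.map (fun a => a.2 - a.1)).sum := by
  induction L with
  | nil => simp [cov_nil]
  | cons a L ih =>
    rw [List.pairwise_cons] at hs
    rw [cov_cons, Set.ncard_union_eq _ (Set.finite_Ico _ _) (cov_finite L), ih hs.2]
    · simp [Set.ncard_eq_toFinset_card']
    · rw [Set.disjoint_left]
      rintro j ⟨_, h2⟩ ⟨b, hb, h3, _⟩
      exact absurd (hs.1 b hb) (by omega)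

lemma sum_getD (φ : ℕ × ℕ → ℝ) (d : ℕ × ℕ) (hd : φ d = 0) :
    ∀ (r : ℕ) (L : List (ℕ × ℕ)), L.length ≤ r →
      ∑ j : Fin r, φ (L.getD j d) = (L.map φ).sum := by
  intro r
  induction r with
  | zero =>
    intro L hL
    have : L = [] := List.length_eq_zero_iff.mp (by omega)
    subst this; simp
  | succ r ih =>
    intro L hL
    cases L with
    | nil => simp [hd]
    | cons a L =>
      rw [Fin.sum_univ_succ]
      simp only [Fin.val_zero, List.getD_cons_zero, Fin.val_succ, List.getD_cons_succ,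
        List.map_cons, List.sum_cons]
      rw [ih L (by simpa using hL)]

lemma prod_ofAdd {α : Type} (φ : α → ℤ) (M : List α) :
    (M.map fun a => Multiplicative.ofAdd (φ a)).prod = Multiplicative.ofAdd ((M.map φ).sum) := by
  induction M with
  | nil => simp
  | cons a M ih => simp [ih, ofAdd_add]

lemma split_sum (φ : ℕ × ℕ → ℤ) (K : ℤ) (hK0 : 0 ≤ K) (M : List (Bool × ℕ × ℕ))
    (hK : ∀ a ∈ M, a.1 = false → |φ a.2| ≤ K) :
    |(M.map (fun a => φ a.2)).sum
      - (((M.filter (fun a => a.1)).map (fun a => a.2)).map φ).sum| ≤ M.length * K := by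
  induction M with
  | nil => simp
  | cons a M ih =>
    have ih' := ih (fun b hb => hK b (List.mem_cons_of_mem _ hb))
    rcases h : a.1 with _ | _
    · have h1 := hK a (List.mem_cons_self) h
      simp only [List.map_cons, List.sum_cons, List.filter_cons, h, Bool.false_eq_true, if_false,
        List.length_cons]
      push_cast
      rw [abs_le] at *
      constructor <;> nlinarith [ih'.1, ih'.2, h1.1, h1.2]
    · simp only [List.map_cons, List.sum_cons, List.filter_cons, h, if_true,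
        List.length_cons]
      push_cast
      rw [abs_le] at *
      constructor <;> nlinarith [ih'.1, ih'.2]

lemma approx_sum (u v : ℕ × ℕ → ℝ) (L : List (ℕ × ℕ)) (h : ∀ a ∈ L, |u a - v a| ≤ 1) :
    |(L.map u).sum - (L.map v).sum| ≤ L.length := by
  induction L with
  | nil => simp
  | cons a L ih =>
    have ih' := ih (fun b hb => h b (List.mem_cons_of_mem _ hb))
    have h1 := h a (List.mem_cons_self)
    simp only [List.map_cons, List.sum_cons, List.length_cons]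
    push_cast
    rw [abs_le] at *
    constructor <;> linarith [ih'.1, ih'.2, h1.1, h1.2]

/-- the scaled integer function -/
noncomputable def gg (f : ℝ → ℝ) (A : ℝ) (m i : ℕ) : ℤ :=
  if i ≤ m then ⌊Real.sqrt m * f ((i : ℝ) / m) / (2 * A)⌋ else 0

lemma gg_zero (f : ℝ → ℝ) (A : ℝ) (m : ℕ) (hf0 : f 0 = 0) : gg f A m 0 = 0 := by
  simp [gg, hf0]

lemma gg_last (f : ℝ → ℝ) (A : ℝ) (m : ℕ) (hm : 1 ≤ m) (hf1 : f 1 = 0) : gg f A m m = 0 := by
  have : (m : ℝ) ≠ 0 := by positivity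
  simp [gg, div_self this, hf1]

lemma gg_step (f : ℝ → ℝ) (A : ℝ) (hA : 1 ≤ A)
    (hf : ∀ x ∈ Set.Icc (0 : ℝ) 1, ∀ y ∈ Set.Icc (0 : ℝ) 1, |f x - f y| ≤ A * Real.sqrt |x - y|)
    (m : ℕ) (hm : 1 ≤ m) (i : ℕ) (hi : i < m) : |gg f A m (i + 1) - gg f A m i| ≤ 1 := by
  have hm0 : (0 : ℝ) < m := by exact_mod_cast hm
  have h1 : ((i + 1 : ℕ) : ℝ) / m ∈ Set.Icc (0 : ℝ) 1 := by
    constructor
    · positivity
    · rw [div_le_one hm0]; exact_mod_cast hi
  have h2 : (i : ℝ) / m ∈ Set.Icc (0 : ℝ) 1 := by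
    constructor
    · positivity
    · rw [div_le_one hm0]; exact_mod_cast hi.le
  have h3 := hf _ h1 _ h2
  have h4 : ((i + 1 : ℕ) : ℝ) / m - (i : ℝ) / m = 1 / m := by push_cast; ring
  rw [h4, abs_of_pos (by positivity : (0 : ℝ) < 1 / m)] at h3
  have h5 : Real.sqrt m * Real.sqrt (1 / m) = 1 := by
    rw [← Real.sqrt_mul hm0.le, mul_one_div_cancel hm0.ne', Real.sqrt_one]
  have h6 : |Real.sqrt m * f (((i + 1 : ℕ) : ℝ) / m) / (2 * A)
      - Real.sqrt m * f ((i : ℝ) / m) / (2 * A)| ≤ 1 / 2 := by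
    have : Real.sqrt m * f (((i + 1 : ℕ) : ℝ) / m) / (2 * A)
      - Real.sqrt m * f ((i : ℝ) / m) / (2 * A) =
      (Real.sqrt m / (2 * A)) * (f (((i + 1 : ℕ) : ℝ) / m) - f ((i : ℝ) / m)) := by ring
    rw [this, abs_mul, abs_of_nonneg (by positivity : 0 ≤ Real.sqrt m / (2 * A))]
    calc Real.sqrt m / (2 * A) * |f (((i + 1 : ℕ) : ℝ) / m) - f ((i : ℝ) / m)|
        ≤ Real.sqrt m / (2 * A) * (A * Real.sqrt (1 / m)) :=
          mul_le_mul_of_nonneg_left h3 (by positivity)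
      _ = (Real.sqrt m * Real.sqrt (1 / m)) * (A / (2 * A)) := by ring
      _ = 1 / 2 := by rw [h5]; field_simp
  unfold gg
  rw [if_pos (by omega : i + 1 ≤ m), if_pos hi.le]
  set a := Real.sqrt m * f (((i + 1 : ℕ) : ℝ) / m) / (2 * A)
  set b := Real.sqrt m * f ((i : ℝ) / m) / (2 * A)
  have e1 := Int.floor_le a
  have e2 := Int.lt_floor_add_one a
  have e3 := Int.floor_le b
  have e4 := Int.lt_floor_add_one b
  rw [abs_le] at h6
  rw [abs_le]
  constructor
  · have : (-2 : ℝ) < (⌊a⌋ - ⌊b⌋ : ℤ) := by push_cast; linarith [h6.1]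
    have : (-2 : ℤ) < ⌊a⌋ - ⌊b⌋ := by exact_mod_cast this
    omega
  · have : ((⌊a⌋ - ⌊b⌋ : ℤ) : ℝ) < 2 := by push_cast; linarith [h6.2]
    have : ⌊a⌋ - ⌊b⌋ < (2 : ℤ) := by exact_mod_cast this
    omega

lemma g_lip (g : ℕ → ℤ) (m : ℕ) (hg : ∀ i < m, |g (i + 1) - g i| ≤ 1) (i k : ℕ)
    (h : i + k ≤ m) : |g (i + k) - g i| ≤ k := by
  induction k with
  | zero => simp
  | succ k ih =>
    have h1 := ih (by omega)
    have h2 := hg (i + k) (by omega)
    rw [abs_le] at *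
    push_cast
    have : i + (k + 1) = i + k + 1 := by ring
    rw [this]
    constructor <;> linarith [h1.1, h1.2, h2.1, h2.2]

lemma disc (r c : ℕ)
    (h : ∀ (m : ℕ) (g : ℕ → ℤ), g 0 = 0 → g m = 0 → (∀ i < m, |g (i + 1) - g i| ≤ 1) →
      ∃ (T : ℕ) (L : ℕ → List (ℕ × ℕ)),
        Sweep r c (c * (Nat.log 2 m + 1)) m (fun i => Multiplicative.ofAdd (g i)) T L)
    (f : ℝ → ℝ) (A : ℝ) (hA : 1 ≤ A) (hf0 : f 0 = 0) (hf1 : f 1 = 0)
    (hf : ∀ x ∈ Set.Icc (0 : ℝ) 1, ∀ y ∈ Set.Icc (0 : ℝ) 1, |f x - f y| ≤ A * Real.sqrt |x - y|)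
    (m : ℕ) (hm : 1 ≤ m) :
    ∃ P : ℝ → Fin r → ℕ × ℕ, ∀ s ∈ Set.Icc (0 : ℝ) 1,
      (∀ j, (P s j).1 ≤ (P s j).2 ∧ (P s j).2 ≤ m) ∧
      (∀ i j, i < j → (P s i).2 ≤ (P s j).1) ∧
      |∑ j, (((P s j).2 : ℝ) - (P s j).1) - (1 - s) * m| ≤ (c * (Nat.log 2 m + 1) : ℕ) ∧
      |∑ j, (f (((P s j).2 : ℝ) / m) - f (((P s j).1 : ℝ) / m))| ≤
        (c * (c * (Nat.log 2 m + 1) : ℕ) + r) * (2 * A / Real.sqrt m) ∧
      (∀ t ∈ Set.Icc (0 : ℝ) 1, s ≤ t → ∀ (n : ℕ) (j : Fin r), (P t j).1 ≤ n → n < (P t j).2 →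
        ∃ i, (P s i).1 ≤ n ∧ n < (P s i).2) := by
  classical
  have hm0 : (0 : ℝ) < m := by exact_mod_cast hm
  obtain ⟨T, L, hS⟩ := h m (gg f A m) (gg_zero f A m hf0) (gg_last f A m hm hf1)
    (fun i hi => gg_step f A hA hf m hm i hi)
  set K : ℕ := c * (Nat.log 2 m + 1) with hK
  have hfin : ∀ t, (Cov (L t)).Finite := fun t => cov_finite _
  have hanti : Antitone (fun t => Cov (L t)) := antitone_nat_of_succ_le hS.anti
  -- the time
  have hex : ∀ s ∈ Set.Icc (0 : ℝ) 1, ∃ t, ((Cov (L t)).ncard : ℝ) ≤ (1 - s) * m := by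
    intro s hs
    refine ⟨T, ?_⟩
    rw [hS.final, Set.ncard_empty, Nat.cast_zero]
    exact mul_nonneg (by linarith [hs.2]) hm0.le
  let tt : ℝ → ℕ := fun s =>
    if hs : ∃ t, ((Cov (L t)).ncard : ℝ) ≤ (1 - s) * m then Nat.find hs else 0
  have htt1 : ∀ s ∈ Set.Icc (0 : ℝ) 1, ((Cov (L (tt s))).ncard : ℝ) ≤ (1 - s) * m := by
    intro s hs
    have := Nat.find_spec (hex s hs)
    simpa only [tt, dif_pos (hex s hs)] using this
  have htt2 : ∀ s ∈ Set.Icc (0 : ℝ) 1, ∀ t < tt s, (1 - s) * m < ((Cov (L t)).ncard : ℝ) := by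
    intro s hs t ht
    have ht' : t < Nat.find (hex s hs) := by simpa only [tt, dif_pos (hex s hs)] using ht
    exact not_le.mp (Nat.find_min (hex s hs) ht')
  have htt3 : ∀ s ∈ Set.Icc (0 : ℝ) 1, ∀ t ∈ Set.Icc (0 : ℝ) 1, s ≤ t → tt s ≤ tt t := by
    intro s hs t ht hst
    by_contra hlt
    push Not at hlt
    have h1 := htt2 s hs _ hlt
    have h2 := htt1 t ht
    have : (1 - t) * m ≤ (1 - s) * m := mul_le_mul_of_nonneg_right (by linarith) hm0.le
    linarith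
  have hlow : ∀ s ∈ Set.Icc (0 : ℝ) 1, (1 - s) * m - K ≤ ((Cov (L (tt s))).ncard : ℝ) := by
    intro s hs
    rcases Nat.eq_zero_or_pos (tt s) with h0 | h0
    · rw [h0]
      have h1 : (Set.Iio m).ncard ≤ (Set.Iio m \ Cov (L 0)).ncard + (Cov (L 0)).ncard := by
        calc (Set.Iio m).ncard ≤ ((Set.Iio m \ Cov (L 0)) ∪ Cov (L 0)).ncard := by
              apply Set.ncard_le_ncard
              · intro x hx
                by_cases hxc : x ∈ Cov (L 0)
                · exact Or.inr hxc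
                · exact Or.inl ⟨hx, hxc⟩
              · exact ((Set.finite_Iio m).sdiff).union (hfin 0)
          _ ≤ _ := Set.ncard_union_le _ _
      have h2 : (Set.Iio m).ncard = m := by
        rw [Set.ncard_eq_toFinset_card']; simp
      have h3 := hS.start
      have h4 : m ≤ K + (Cov (L 0)).ncard := by omega
      have h5 : (m : ℝ) ≤ K + ((Cov (L 0)).ncard : ℝ) := by exact_mod_cast h4
      have h6 : (1 - s) * m ≤ m := by nlinarith [hs.1]
      linarith
    · obtain ⟨t, ht⟩ : ∃ t, tt s = t + 1 := ⟨tt s - 1, by omega⟩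
      rw [ht]
      have h1 := htt2 s hs t (by omega)
      have h2 : (Cov (L t)).ncard ≤ (Cov (L t) \ Cov (L (t + 1))).ncard
          + (Cov (L (t + 1))).ncard := by
        calc (Cov (L t)).ncard ≤ ((Cov (L t) \ Cov (L (t + 1))) ∪ Cov (L (t + 1))).ncard := by
              apply Set.ncard_le_ncard
              · intro x hx
                by_cases hxc : x ∈ Cov (L (t + 1))
                · exact Or.inr hxc
                · exact Or.inl ⟨hx, hxc⟩
              · exact ((hfin t).sdiff).union (hfin _)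
          _ ≤ _ := Set.ncard_union_le _ _
      have h3 := hS.step t
      have h4 : (Cov (L t)).ncard ≤ K + (Cov (L (t + 1))).ncard := by omega
      have h5 : ((Cov (L t)).ncard : ℝ) ≤ K + ((Cov (L (t + 1))).ncard : ℝ) := by exact_mod_cast h4
      linarith
  refine ⟨fun s j => (L (tt s)).getD j (m, m), ?_⟩
  intro s hs
  have hget : ∀ (u : ℕ) (j : ℕ), ((L u).getD j (m, m)) ∈ L u ∨ ((L u).getD j (m, m)) = (m, m) := by
    intro u j
    by_cases hj : j < (L u).length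
    · left; rw [List.getD_eq_getElem _ _ hj]; exact List.getElem_mem _
    · right; rw [List.getD_eq_default _ _ (by omega)]
  refine ⟨?_, ?_, ?_, ?_, ?_⟩
  · intro j
    rcases hget (tt s) j with hj | hj
    · exact hS.bdd _ _ hj
    · simp only [hj]; exact ⟨le_rfl, le_rfl⟩
  · intro i j hij
    by_cases hj : (j : ℕ) < (L (tt s)).length
    · have hi : (i : ℕ) < (L (tt s)).length := lt_trans (by exact_mod_cast hij) hj
      simp only [List.getD_eq_getElem _ _ hi, List.getD_eq_getElem _ _ hj]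
      exact (List.pairwise_iff_getElem.mp (hS.sorted (tt s))) i j hi hj (by exact_mod_cast hij)
    · simp only [List.getD_eq_default (L (tt s)) (m, m) (by omega : (L (tt s)).length ≤ (j : ℕ))]
      rcases hget (tt s) i with hi | hi
      · exact (hS.bdd _ _ hi).2
      · simp only [hi]; exact le_rfl
  · have h1 : ∑ j : Fin r, ((((L (tt s)).getD j (m, m)).2 : ℝ) - ((L (tt s)).getD j (m, m)).1)
        = ((L (tt s)).map (fun a => ((a.2 : ℝ) - a.1))).sum :=
      sum_getD (fun a => ((a.2 : ℝ) - a.1)) (m, m) (by simp) r (L (tt s)) (hS.len _)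
    show |∑ j : Fin r, ((((L (tt s)).getD j (m, m)).2 : ℝ) - ((L (tt s)).getD j (m, m)).1)
      - (1 - s) * m| ≤ _
    rw [h1]
    have h2 : (((L (tt s)).map (fun a => ((a.2 : ℝ) - a.1))).sum : ℝ)
        = ((Cov (L (tt s))).ncard : ℝ) := by
      rw [cov_ncard _ (hS.sorted _)]
      have : ∀ M : List (ℕ × ℕ), (∀ a ∈ M, a.1 ≤ a.2) →
          ((M.map (fun a => ((a.2 : ℝ) - a.1))).sum : ℝ)
            = (((M.map (fun a => a.2 - a.1)).sum : ℕ) : ℝ) := by
        intro M hM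
        induction M with
        | nil => simp
        | cons a M ih =>
          simp only [List.map_cons, List.sum_cons]
          rw [ih (fun b hb => hM b (List.mem_cons_of_mem _ hb)), Nat.cast_add,
            Nat.cast_sub (hM a List.mem_cons_self)]
      exact this _ (fun a ha => (hS.bdd _ a ha).1)
    rw [h2, abs_le]
    constructor
    · linarith [hlow s hs]
    · linarith [htt1 s hs, (Nat.cast_nonneg K : (0 : ℝ) ≤ K)]
  · have h1 : ∑ j : Fin r, (f ((((L (tt s)).getD j (m, m)).2 : ℝ) / m)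
          - f ((((L (tt s)).getD j (m, m)).1 : ℝ) / m))
        = ((L (tt s)).map (fun a => (f ((a.2 : ℝ) / m) - f ((a.1 : ℝ) / m)))).sum :=
      sum_getD (fun a => (f ((a.2 : ℝ) / m) - f ((a.1 : ℝ) / m))) (m, m) (by simp) r
        (L (tt s)) (hS.len _)
    show |∑ j : Fin r, (f ((((L (tt s)).getD j (m, m)).2 : ℝ) / m)
          - f ((((L (tt s)).getD j (m, m)).1 : ℝ) / m))| ≤ _
    rw [h1]
    set N := L (tt s) with hN
    obtain ⟨M, hM1, hM2, hM3, hM4⟩ := hS.rel (tt s)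
    -- integer identity
    have hint : |((N.map (fun a => gg f A m a.2 - gg f A m a.1)).sum : ℤ)| ≤ (c : ℤ) * K := by
      have e1 : (M.map fun a => (Multiplicative.ofAdd (gg f A m a.2.1))⁻¹
          * Multiplicative.ofAdd (gg f A m a.2.2)).prod = 1 := hM4
      have e2 : (M.map fun a => (Multiplicative.ofAdd (gg f A m a.2.1))⁻¹
          * Multiplicative.ofAdd (gg f A m a.2.2))
          = M.map (fun a => Multiplicative.ofAdd (gg f A m a.2.2 - gg f A m a.2.1)) := by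
        apply List.map_congr_left
        intro a _
        rw [← ofAdd_neg, ← ofAdd_add]; congr 1; ring
      rw [e2, prod_ofAdd] at e1
      have e3 : (M.map (fun a => gg f A m a.2.2 - gg f A m a.2.1)).sum = 0 := by
        exact Multiplicative.ofAdd.injective (e1.trans ofAdd_zero.symm)
      have e4 := split_sum (fun a => gg f A m a.2 - gg f A m a.1) K (by positivity) M (by
        intro a ha haf
        obtain ⟨q1, q2, q3⟩ := hM3 a ha haf
        have := g_lip (gg f A m) m (fun i hi => gg_step f A hA hf m hm i hi) a.2.1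
          (a.2.2 - a.2.1) (by omega)
        rw [show a.2.1 + (a.2.2 - a.2.1) = a.2.2 by omega] at this
        refine this.trans ?_
        have : a.2.2 - a.2.1 ≤ K := by omega
        exact_mod_cast this)
      rw [hM2, e3, zero_sub, abs_neg] at e4
      refine e4.trans ?_
      exact mul_le_mul_of_nonneg_right (by exact_mod_cast hM1) (by positivity)
    have happ := approx_sum
      (fun a => Real.sqrt m * f ((a.2 : ℝ) / m) / (2 * A) - Real.sqrt m * f ((a.1 : ℝ) / m) / (2 * A))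
      (fun a => ((gg f A m a.2 - gg f A m a.1 : ℤ) : ℝ)) N (by
        intro a ha
        have hb := hS.bdd _ a ha
        simp only [gg, if_pos hb.2, if_pos (hb.1.trans hb.2)]
        push_cast
        have e1 := Int.floor_le (Real.sqrt m * f ((a.2 : ℝ) / m) / (2 * A))
        have e2 := Int.lt_floor_add_one (Real.sqrt m * f ((a.2 : ℝ) / m) / (2 * A))
        have e3 := Int.floor_le (Real.sqrt m * f ((a.1 : ℝ) / m) / (2 * A))
        have e4 := Int.lt_floor_add_one (Real.sqrt m * f ((a.1 : ℝ) / m) / (2 * A))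
        rw [abs_le]; constructor <;> linarith)
    have hcast : ((N.map (fun a => ((gg f A m a.2 - gg f A m a.1 : ℤ) : ℝ))).sum : ℝ)
        = (((N.map (fun a => gg f A m a.2 - gg f A m a.1)).sum : ℤ) : ℝ) := by
      rw [Int.cast_list_sum, List.map_map]; rfl
    rw [hcast] at happ
    have hint' : |(((N.map (fun a => gg f A m a.2 - gg f A m a.1)).sum : ℤ) : ℝ)| ≤ (c : ℝ) * K := by
      have := (Int.cast_le (R := ℝ)).mpr hint
      push_cast at this ⊢
      exact_mod_cast this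
    have hlen : (N.length : ℝ) ≤ r := by exact_mod_cast hS.len _
    have hscale : (N.map (fun a => Real.sqrt m * f ((a.2 : ℝ) / m) / (2 * A)
          - Real.sqrt m * f ((a.1 : ℝ) / m) / (2 * A))).sum
        = (Real.sqrt m / (2 * A)) * (N.map (fun a => f ((a.2 : ℝ) / m) - f ((a.1 : ℝ) / m))).sum := by
      rw [← List.sum_map_mul_left]
      congr 1
      apply List.map_congr_left
      intro a _
      ring
    rw [hscale] at happ
    have hsq : 0 < Real.sqrt m := Real.sqrt_pos.mpr hm0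
    have hb : |Real.sqrt m / (2 * A) *
        (N.map (fun a => f ((a.2 : ℝ) / m) - f ((a.1 : ℝ) / m))).sum| ≤ c * K + r := by
      rw [abs_le] at *
      constructor <;> linarith [happ.1, happ.2, hint'.1, hint'.2]
    rw [abs_mul, abs_of_pos (by positivity : 0 < Real.sqrt m / (2 * A))] at hb
    have : |(N.map (fun a => f ((a.2 : ℝ) / m) - f ((a.1 : ℝ) / m))).sum|
        = (Real.sqrt m / (2 * A) *
          |(N.map (fun a => f ((a.2 : ℝ) / m) - f ((a.1 : ℝ) / m))).sum|) * (2 * A / Real.sqrt m) := by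
      field_simp
    rw [this]
    exact mul_le_mul_of_nonneg_right hb (by positivity)
  · intro t ht hst n j hj1 hj2
    have hmem : n ∈ Cov (L (tt t)) := by
      rcases hget (tt t) j with hj | hj
      · exact ⟨_, hj, hj1, hj2⟩
      · simp only [hj] at hj1 hj2; omega
    obtain ⟨a, ha, ha1, ha2⟩ := hanti (htt3 s hs t ht hst) hmem
    obtain ⟨i, hi, hia⟩ := List.getElem_of_mem ha
    refine ⟨⟨i, lt_of_lt_of_le hi (hS.len _)⟩, ?_⟩
    simp only [List.getD_eq_getElem _ _ hi, hia]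
    exact ⟨ha1, ha2⟩

lemma logsq : Tendsto (fun n : ℕ => ((Nat.log 2 (n + 1) : ℝ) + 1) / Real.sqrt ((n + 1 : ℕ) : ℝ))
    atTop (𝓝 0) := by
  have h1 : Tendsto (fun x : ℝ => Real.log x / x ^ (1 / 2 : ℝ)) atTop (𝓝 0) :=
    (isLittleO_log_rpow_atTop (by norm_num : (0 : ℝ) < 1 / 2)).tendsto_div_nhds_zero
  have h2 : Tendsto (fun x : ℝ => (Real.log x / Real.log 2 + 1) / Real.sqrt x) atTop (𝓝 0) := by
    have h3 : Tendsto (fun x : ℝ => (Real.log x / x ^ (1 / 2 : ℝ)) / Real.log 2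
        + (Real.sqrt x)⁻¹) atTop (𝓝 (0 / Real.log 2 + 0)) :=
      (h1.div_const _).add (tendsto_inv_atTop_zero.comp Real.tendsto_sqrt_atTop)
    rw [zero_div, add_zero] at h3
    refine h3.congr (fun x => ?_)
    rw [← Real.sqrt_eq_rpow]
    ring
  have h4 : Tendsto (fun n : ℕ => ((n + 1 : ℕ) : ℝ)) atTop atTop :=
    tendsto_natCast_atTop_atTop.comp (tendsto_add_atTop_nat 1)
  refine squeeze_zero (fun n => by positivity) (fun n => ?_) (h2.comp h4)
  have h5 : (Nat.log 2 (n + 1) : ℝ) ≤ Real.logb 2 ((n + 1 : ℕ) : ℝ) := by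
    have := Real.natLog_le_logb (n + 1) 2
    exact_mod_cast this
  simp only [Function.comp]
  apply div_le_div_of_nonneg_right _ (Real.sqrt_nonneg _)
  rw [Real.logb] at h5
  linarith

end H816

open H816 in
theorem family_of_sweepable (r c : ℕ)
    (h : ∀ (m : ℕ) (g : ℕ → ℤ), g 0 = 0 → g m = 0 → (∀ i < m, |g (i + 1) - g i| ≤ 1) →
      ∃ (T : ℕ) (L : ℕ → List (ℕ × ℕ)),
        Sweep r c (c * (Nat.log 2 m + 1)) m (fun i => Multiplicative.ofAdd (g i)) T L)
    (f : ℝ → ℝ) (A : ℝ) (hf0 : f 0 = 0) (hf1 : f 1 = 0)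
    (hf : ∀ x ∈ Set.Icc (0 : ℝ) 1, ∀ y ∈ Set.Icc (0 : ℝ) 1, |f x - f y| ≤ A * Real.sqrt |x - y|) :
    ∃ x : ℝ → Fin r → ℝ × ℝ,
      (∀ s ∈ Set.Icc (0 : ℝ) 1, ∀ j, 0 ≤ (x s j).1 ∧ (x s j).1 ≤ (x s j).2 ∧ (x s j).2 ≤ 1) ∧
      (∀ s ∈ Set.Icc (0 : ℝ) 1, ∀ i j, i < j → (x s i).2 ≤ (x s j).1) ∧
      (∀ s ∈ Set.Icc (0 : ℝ) 1, ∑ j, ((x s j).2 - (x s j).1) = 1 - s) ∧
      (∀ s ∈ Set.Icc (0 : ℝ) 1, ∑ j, (f (x s j).2 - f (x s j).1) = 0) ∧
      (∀ s ∈ Set.Icc (0 : ℝ) 1, ∀ t ∈ Set.Icc (0 : ℝ) 1, s ≤ t → IcoU (x t) ⊆ IcoU (x s)) := by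
  classical
  set B : ℝ := max A 1 with hB
  have hB1 : 1 ≤ B := le_max_right _ _
  have hfB : ∀ x ∈ Set.Icc (0 : ℝ) 1, ∀ y ∈ Set.Icc (0 : ℝ) 1,
      |f x - f y| ≤ B * Real.sqrt |x - y| := fun x hx y hy =>
    (hf x hx y hy).trans (mul_le_mul_of_nonneg_right (le_max_left _ _) (Real.sqrt_nonneg _))
  choose P hP using fun n : ℕ => disc r c h f B hB1 hf0 hf1 hfB (n + 1) (by omega)
  let U : Ultrafilter ℕ := Filter.hyperfilter ℕ
  have hU : (U : Filter ℕ) ≤ atTop := Nat.hyperfilter_le_atTop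
  -- limits
  have hlim : ∀ (s : ℝ) (j : Fin r), ∃ p : ℝ × ℝ, s ∈ Set.Icc (0 : ℝ) 1 →
      (p.1 ∈ Set.Icc (0 : ℝ) 1 ∧ p.2 ∈ Set.Icc (0 : ℝ) 1) ∧
      Tendsto (fun n : ℕ => ((P n s j).1 : ℝ) / ((n + 1 : ℕ) : ℝ)) U (𝓝 p.1) ∧
      Tendsto (fun n : ℕ => ((P n s j).2 : ℝ) / ((n + 1 : ℕ) : ℝ)) U (𝓝 p.2) := by
    intro s j
    by_cases hs : s ∈ Set.Icc (0 : ℝ) 1
    · have hb : ∀ n : ℕ, ((P n s j).1 : ℝ) / ((n + 1 : ℕ) : ℝ) ∈ Set.Icc (0 : ℝ) 1 ∧
          ((P n s j).2 : ℝ) / ((n + 1 : ℕ) : ℝ) ∈ Set.Icc (0 : ℝ) 1 := by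
        intro n
        have h1 := (hP n s hs).1 j
        have hpos : (0 : ℝ) < ((n + 1 : ℕ) : ℝ) := by positivity
        refine ⟨⟨by positivity, ?_⟩, ⟨by positivity, ?_⟩⟩
        · rw [div_le_one hpos]; exact_mod_cast h1.1.trans h1.2
        · rw [div_le_one hpos]; exact_mod_cast h1.2
      obtain ⟨p, hp, hp2⟩ := (isCompact_Icc (a := (0 : ℝ)) (b := 1)).ultrafilter_le_nhds
        (U.map fun n : ℕ => ((P n s j).1 : ℝ) / ((n + 1 : ℕ) : ℝ))
        (le_principal_iff.mpr (by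
          rw [Ultrafilter.coe_map, mem_map]; exact Filter.univ_mem' (fun n => (hb n).1)))
      obtain ⟨q, hq, hq2⟩ := (isCompact_Icc (a := (0 : ℝ)) (b := 1)).ultrafilter_le_nhds
        (U.map fun n : ℕ => ((P n s j).2 : ℝ) / ((n + 1 : ℕ) : ℝ))
        (le_principal_iff.mpr (by
          rw [Ultrafilter.coe_map, mem_map]; exact Filter.univ_mem' (fun n => (hb n).2)))
      exact ⟨(p, q), fun _ => ⟨⟨hp, hq⟩, hp2, hq2⟩⟩
    · exact ⟨(0, 0), fun h => absurd h hs⟩
  choose x hx using hlim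
  -- error terms
  have herr1 : Tendsto (fun n : ℕ => ((c * (Nat.log 2 (n + 1) + 1) : ℕ) : ℝ) / ((n + 1 : ℕ) : ℝ))
      atTop (𝓝 0) := by
    have h1 := logsq.const_mul (c : ℝ)
    rw [mul_zero] at h1
    refine squeeze_zero (fun n => by positivity) (fun n => ?_) h1
    push_cast
    rw [mul_div_assoc]
    apply mul_le_mul_of_nonneg_left _ (by positivity)
    apply div_le_div_of_nonneg_left (by positivity) (by positivity)
    rw [Real.sqrt_le_left (by positivity)]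
    nlinarith [(Nat.cast_nonneg n : (0 : ℝ) ≤ n)]
  have herr2 : Tendsto (fun n : ℕ => ((c : ℝ) * ((c * (Nat.log 2 (n + 1) + 1) : ℕ) : ℝ) + r)
      * (2 * B / Real.sqrt ((n + 1 : ℕ) : ℝ))) atTop (𝓝 0) := by
    have h1 := (logsq.const_mul ((c : ℝ) * c * (2 * B)))
    have h4 : Tendsto (fun n : ℕ => ((n + 1 : ℕ) : ℝ)) atTop atTop :=
      tendsto_natCast_atTop_atTop.comp (tendsto_add_atTop_nat 1)
    have h2 : Tendsto (fun n : ℕ => ((r : ℝ) * (2 * B)) * (Real.sqrt ((n + 1 : ℕ) : ℝ))⁻¹) atTop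
        (𝓝 (((r : ℝ) * (2 * B)) * 0)) :=
      (tendsto_inv_atTop_zero.comp (Real.tendsto_sqrt_atTop.comp h4)).const_mul _
    have h3 := h1.add h2
    rw [mul_zero, mul_zero, add_zero] at h3
    refine h3.congr (fun n => ?_)
    push_cast
    ring
  have hcont : ∀ (u : ℕ → ℝ) (l : ℝ), (∀ n, u n ∈ Set.Icc (0 : ℝ) 1) → l ∈ Set.Icc (0 : ℝ) 1 →
      Tendsto u U (𝓝 l) → Tendsto (fun n => f (u n)) U (𝓝 (f l)) := by
    intro u l hu hl hul
    rw [tendsto_iff_dist_tendsto_zero]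
    have h1 : Tendsto (fun n => B * Real.sqrt |u n - l|) U (𝓝 0) := by
      have h2 : Tendsto (fun n => |u n - l|) U (𝓝 0) := by
        have := (tendsto_iff_dist_tendsto_zero.mp hul)
        simpa [Real.dist_eq] using this
      have h3 := (Real.continuous_sqrt.tendsto 0).comp h2
      rw [Real.sqrt_zero] at h3
      simpa using h3.const_mul B
    refine squeeze_zero (fun n => dist_nonneg) (fun n => ?_) h1
    rw [Real.dist_eq]
    exact hfB _ (hu n) _ hl
  have hbnd : ∀ s ∈ Set.Icc (0 : ℝ) 1, ∀ (j : Fin r) (n : ℕ),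
      ((P n s j).1 : ℝ) / ((n + 1 : ℕ) : ℝ) ∈ Set.Icc (0 : ℝ) 1 ∧
      ((P n s j).2 : ℝ) / ((n + 1 : ℕ) : ℝ) ∈ Set.Icc (0 : ℝ) 1 := by
    intro s hs j n
    have h1 := (hP n s hs).1 j
    have hpos : (0 : ℝ) < ((n + 1 : ℕ) : ℝ) := by positivity
    refine ⟨⟨by positivity, ?_⟩, ⟨by positivity, ?_⟩⟩
    · rw [div_le_one hpos]; exact_mod_cast h1.1.trans h1.2
    · rw [div_le_one hpos]; exact_mod_cast h1.2
  refine ⟨x, ?_, ?_, ?_, ?_, ?_⟩
  · intro s hs j
    obtain ⟨⟨h1, h2⟩, h3, h4⟩ := hx s j hs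
    refine ⟨h1.1, ?_, h2.2⟩
    refine le_of_tendsto_of_tendsto' h3 h4 (fun n => ?_)
    apply div_le_div_of_nonneg_right _ (by positivity)
    exact_mod_cast ((hP n s hs).1 j).1
  · intro s hs i j hij
    obtain ⟨_, _, h4⟩ := hx s i hs
    obtain ⟨_, h3, _⟩ := hx s j hs
    refine le_of_tendsto_of_tendsto' h4 h3 (fun n => ?_)
    apply div_le_div_of_nonneg_right _ (by positivity)
    exact_mod_cast ((hP n s hs).2.1 i j hij)
  · intro s hs
    have h1 : Tendsto (fun n : ℕ => ∑ j, (((P n s j).2 : ℝ) / ((n + 1 : ℕ) : ℝ)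
        - ((P n s j).1 : ℝ) / ((n + 1 : ℕ) : ℝ))) U (𝓝 (∑ j, ((x s j).2 - (x s j).1))) :=
      tendsto_finsetSum _ (fun j _ => (hx s j hs).2.2.sub (hx s j hs).2.1)
    have h2 : Tendsto (fun n : ℕ => ∑ j, (((P n s j).2 : ℝ) / ((n + 1 : ℕ) : ℝ)
        - ((P n s j).1 : ℝ) / ((n + 1 : ℕ) : ℝ))) U (𝓝 (1 - s)) := by
      rw [tendsto_iff_dist_tendsto_zero]
      refine squeeze_zero (fun n => dist_nonneg) (fun n => ?_) (herr1.mono_left hU)
      have h3 := (hP n s hs).2.2.1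
      have hpos : (0 : ℝ) < ((n + 1 : ℕ) : ℝ) := by positivity
      rw [Real.dist_eq]
      have h4 : ∑ j, (((P n s j).2 : ℝ) / ((n + 1 : ℕ) : ℝ)
          - ((P n s j).1 : ℝ) / ((n + 1 : ℕ) : ℝ)) - (1 - s)
          = (∑ j, (((P n s j).2 : ℝ) - (P n s j).1) - (1 - s) * ((n + 1 : ℕ) : ℝ))
            / ((n + 1 : ℕ) : ℝ) := by
        rw [sub_div, Finset.sum_div, mul_div_cancel_right₀ _ hpos.ne']
        congr 1
        apply Finset.sum_congr rfl
        intro j _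
        rw [sub_div]
      rw [h4, abs_div, abs_of_pos hpos]
      exact div_le_div_of_nonneg_right h3 hpos.le
    exact tendsto_nhds_unique h1 h2
  · intro s hs
    have h1 : Tendsto (fun n : ℕ => ∑ j, (f (((P n s j).2 : ℝ) / ((n + 1 : ℕ) : ℝ))
        - f (((P n s j).1 : ℝ) / ((n + 1 : ℕ) : ℝ)))) U
        (𝓝 (∑ j, (f (x s j).2 - f (x s j).1))) :=
      tendsto_finsetSum _ (fun j _ =>
        (hcont _ _ (fun n => (hbnd s hs j n).2) (hx s j hs).1.2 (hx s j hs).2.2).sub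
        (hcont _ _ (fun n => (hbnd s hs j n).1) (hx s j hs).1.1 (hx s j hs).2.1))
    have h2 : Tendsto (fun n : ℕ => ∑ j, (f (((P n s j).2 : ℝ) / ((n + 1 : ℕ) : ℝ))
        - f (((P n s j).1 : ℝ) / ((n + 1 : ℕ) : ℝ)))) U (𝓝 0) := by
      refine squeeze_zero_norm (fun n => ?_) (herr2.mono_left hU)
      rw [Real.norm_eq_abs]
      exact (hP n s hs).2.2.2.1
    exact tendsto_nhds_unique h1 h2
  · intro s hs t ht hst
    -- closed covering
    have hcov : ∀ (j : Fin r) (y : ℝ), (x t j).1 < y → y < (x t j).2 →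
        ∃ i, (x s i).1 ≤ y ∧ y ≤ (x s i).2 := by
      intro j y hy1 hy2
      have hy0 : 0 ≤ y := (hx t j ht).1.1.1.trans hy1.le
      have e1 : ∀ᶠ n : ℕ in U, ((P n t j).1 : ℝ) / ((n + 1 : ℕ) : ℝ) < y - 1 / ((n + 1 : ℕ) : ℝ) := by
        have q1 : Tendsto (fun n : ℕ => y - 1 / ((n + 1 : ℕ) : ℝ)) U (𝓝 (y - 0)) := by
          refine (tendsto_const_nhds.sub ?_)
          have := (tendsto_one_div_add_atTop_nhds_zero_nat (𝕜 := ℝ)).mono_left hU
          refine this.congr (fun n => by push_cast; rfl)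
        rw [sub_zero] at q1
        exact (hx t j ht).2.1.eventually_lt q1 hy1
      have e2 : ∀ᶠ n : ℕ in U, y < ((P n t j).2 : ℝ) / ((n + 1 : ℕ) : ℝ) :=
        (hx t j ht).2.2.eventually (lt_mem_nhds hy2)
      have e3 : ∀ᶠ n : ℕ in U, ∃ i : Fin r, ((P n s i).1 : ℝ) / ((n + 1 : ℕ) : ℝ) ≤ y ∧
          y ≤ ((P n s i).2 : ℝ) / ((n + 1 : ℕ) : ℝ) := by
        filter_upwards [e1, e2] with n h1 h2
        have hpos : (0 : ℝ) < ((n + 1 : ℕ) : ℝ) := by positivity
        have f1 := Nat.floor_le (mul_nonneg hy0 hpos.le)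
        have f2 := Nat.lt_floor_add_one (y * ((n + 1 : ℕ) : ℝ))
        have h1' : ((P n t j).1 : ℝ) < y * ((n + 1 : ℕ) : ℝ) - 1 := by
          rw [div_lt_iff₀ hpos] at h1
          have : (y - 1 / ((n + 1 : ℕ) : ℝ)) * ((n + 1 : ℕ) : ℝ) = y * ((n + 1 : ℕ) : ℝ) - 1 := by
            field_simp
          linarith
        have h2' : y * ((n + 1 : ℕ) : ℝ) < ((P n t j).2 : ℝ) := by
          rwa [lt_div_iff₀ hpos] at h2
        have g1 : (P n t j).1 ≤ ⌊y * ((n + 1 : ℕ) : ℝ)⌋₊ := by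
          have : ((P n t j).1 : ℝ) < (⌊y * ((n + 1 : ℕ) : ℝ)⌋₊ : ℝ) := by linarith
          exact_mod_cast this.le
        have g2 : ⌊y * ((n + 1 : ℕ) : ℝ)⌋₊ < (P n t j).2 := by
          have : (⌊y * ((n + 1 : ℕ) : ℝ)⌋₊ : ℝ) < ((P n t j).2 : ℝ) := by linarith
          exact_mod_cast this
        obtain ⟨i, hi1, hi2⟩ := (hP n s hs).2.2.2.2 t ht hst _ j g1 g2
        refine ⟨i, ?_, ?_⟩
        · rw [div_le_iff₀ hpos]
          have : ((P n s i).1 : ℝ) ≤ (⌊y * ((n + 1 : ℕ) : ℝ)⌋₊ : ℝ) := by exact_mod_cast hi1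
          linarith
        · rw [le_div_iff₀ hpos]
          have : ((⌊y * ((n + 1 : ℕ) : ℝ)⌋₊ + 1 : ℕ) : ℝ) ≤ ((P n s i).2 : ℝ) := by
            exact_mod_cast hi2
          push_cast at this f2 ⊢
          linarith
      have e4 : ∃ i : Fin r, ∀ᶠ n : ℕ in U, ((P n s i).1 : ℝ) / ((n + 1 : ℕ) : ℝ) ≤ y ∧
          y ≤ ((P n s i).2 : ℝ) / ((n + 1 : ℕ) : ℝ) := by
        have : (⋃ i ∈ (Set.univ : Set (Fin r)), {n : ℕ | ((P n s i).1 : ℝ) / ((n + 1 : ℕ) : ℝ) ≤ y ∧
          y ≤ ((P n s i).2 : ℝ) / ((n + 1 : ℕ) : ℝ)}) ∈ U := by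
          refine U.sets_of_superset e3 ?_
          intro n hn
          obtain ⟨i, hi⟩ := hn
          simp only [Set.mem_iUnion]
          exact ⟨i, Set.mem_univ _, hi⟩
        rw [Ultrafilter.finite_biUnion_mem_iff Set.finite_univ] at this
        obtain ⟨i, _, hi⟩ := this
        exact ⟨i, hi⟩
      obtain ⟨i, hi⟩ := e4
      refine ⟨i, ?_, ?_⟩
      · exact le_of_tendsto (hx s i hs).2.1 (hi.mono fun n h => h.1)
      · exact ge_of_tendsto (hx s i hs).2.2 (hi.mono fun n h => h.2)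
    intro y hy
    simp only [IcoU, Set.mem_iUnion, Set.mem_Ico] at hy ⊢
    obtain ⟨j, hj1, hj2⟩ := hy
    by_contra hcon
    push Not at hcon
    -- a point slightly to the right
    have hfinset : ∃ y', y < y' ∧ y' < (x t j).2 ∧ ∀ i, y < (x s i).1 → y' < (x s i).1 := by
      have e1 : ∀ᶠ z in 𝓝[>] y, z < (x t j).2 := by
        filter_upwards [Ioo_mem_nhdsGT hj2] with z hz using hz.2
      have e2 : ∀ᶠ z in 𝓝[>] y, ∀ i, y < (x s i).1 → z < (x s i).1 := by
        rw [eventually_all]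
        intro i
        by_cases hi : y < (x s i).1
        · filter_upwards [Ioo_mem_nhdsGT hi] with z hz _ using hz.2
        · exact Filter.Eventually.of_forall (fun z h => absurd h hi)
      have e3 : ∀ᶠ z in 𝓝[>] y, y < z := by
        filter_upwards [self_mem_nhdsWithin] with z hz using hz
      obtain ⟨z, hz1, hz2, hz3⟩ := (e1.and (e2.and e3)).exists
      exact ⟨z, hz3, hz1, hz2⟩
    obtain ⟨y', hy1, hy2, hy3⟩ := hfinset
    obtain ⟨i, hi1, hi2⟩ := hcov j y' (lt_of_le_of_lt hj1 hy1) hy2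
    rcases lt_or_ge y (x s i).1 with hlt | hge
    · exact absurd (hy3 i hlt) (not_lt.mpr hi1)
    · have := hcon i hge
      linarith

end Pool.Agent.TH719.ED
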